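import Pool.Agent.H55.CG.Targets

/-!
Rows KSE and KLO of the board cog_modules.
-/

set_option autoImplicit false

open MeasureTheory ProbabilityTheory Filter Topology
open Pool.Agent.H95 Pool.Agent.H95.Cop Pool.Agent.H55.CG

namespace Pool.Agent.H42.CG

theorem pf_KSE : T_KSE := by
  intro b0 D C R' T hb hD hC hR hT
  obtain ⟨A, hA⟩ := pow_unbounded_of_one_lt
    (max (16 * D ^ 3 / b0 ^ 2) ((R' : ℝ) * D ^ (2 * T + 2) * 4 ^ T)) (by norm_num : (1 : ℝ) < 2)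
  have hA1 : 16 * D ^ 3 ≤ b0 ^ 2 * 2 ^ A := by
    have h := (le_max_left _ _).trans hA.le
    rw [div_le_iff₀ (by positivity)] at h
    linarith
  have hA2 : (R' : ℝ) * D ^ (2 * T + 2) * 4 ^ T ≤ 2 ^ A := (le_max_right _ _).trans hA.le
  have hD0 : 0 < D := lt_of_lt_of_le one_pos hD
  have hR0 : (0 : ℝ) < R' := by exact_mod_cast hR
  have hc : 0 < b0 / (8 * ((A : ℝ) + 1) * C * ((T : ℝ) + 1) ^ 2) := by positivity
  have hlim := tendsto_pow_const_div_const_pow_of_one_lt 3 (by norm_num : (1 : ℝ) < 2)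
  obtain ⟨n0, hn0⟩ := eventually_atTop.1 (hlim.eventually_lt_const hc)
  obtain ⟨k, hk⟩ : ∃ k, k = n0 + 1 := ⟨_, rfl⟩
  have hk1 : ((k + 1 : ℕ) : ℝ) ^ 3 / 2 ^ (k + 1) <
      b0 / (8 * ((A : ℝ) + 1) * C * ((T : ℝ) + 1) ^ 2) := hn0 (k + 1) (by omega)
  have hkpos : (0 : ℝ) < ((k * T + 1 : ℕ) : ℝ) := by positivity
  refine ⟨k, by omega, fun m hm => ⟨(A + 1) * (k + 1), Nat.mul_pos (Nat.succ_pos A) (Nat.succ_pos k), ?_, ?_⟩⟩
  · have h1 : D ^ (2 * m + 2 * k + 3) ≤ D ^ (2 * (k * T) + 2 * k + 3) :=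
      pow_le_pow_right₀ hD (by omega)
    have h2 : D ^ (2 * (k * T) + 2 * k + 3) = D ^ 3 * (D ^ (2 * T + 2)) ^ k := by
      rw [← pow_mul, ← pow_add]
      congr 1
      ring
    have h3 : ((k * T + 1 : ℕ) : ℝ) ^ 2 ≤ (4 ^ T) ^ k := by
      have h : ((k * T + 1 : ℕ) : ℝ) ≤ 2 ^ (k * T) := by
        exact_mod_cast Nat.lt_two_pow_self
      calc ((k * T + 1 : ℕ) : ℝ) ^ 2 ≤ (2 ^ (k * T)) ^ 2 := by gcongr
        _ = (4 ^ T) ^ k := by
          rw [show (4 : ℝ) = 2 ^ 2 by norm_num, ← pow_mul, ← pow_mul, ← pow_mul]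
          congr 1
          ring
    have h4 : (2 : ℝ) ^ A ≤ 2 ^ (A + 1) := pow_le_pow_right₀ (by norm_num) (by omega)
    have h5 : 16 * ((R' : ℝ) ^ k * D ^ (2 * m + 2 * k + 3)) * ((k * T + 1 : ℕ) : ℝ) ^ 2 ≤
        2 ^ ((A + 1) * (k + 1)) * b0 ^ 2 := by
      calc 16 * ((R' : ℝ) ^ k * D ^ (2 * m + 2 * k + 3)) * ((k * T + 1 : ℕ) : ℝ) ^ 2
          ≤ 16 * ((R' : ℝ) ^ k * (D ^ 3 * (D ^ (2 * T + 2)) ^ k)) * (4 ^ T) ^ k := by
            rw [← h2]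
            gcongr
        _ = (16 * D ^ 3) * ((R' : ℝ) * D ^ (2 * T + 2) * 4 ^ T) ^ k := by
            rw [mul_pow, mul_pow]
            ring
        _ ≤ (b0 ^ 2 * 2 ^ (A + 1)) * (2 ^ (A + 1)) ^ k := by
            have e1 : 16 * D ^ 3 ≤ b0 ^ 2 * 2 ^ (A + 1) :=
              hA1.trans (mul_le_mul_of_nonneg_left h4 (by positivity))
            have e2 : ((R' : ℝ) * D ^ (2 * T + 2) * 4 ^ T) ^ k ≤ (2 ^ (A + 1)) ^ k :=
              pow_le_pow_left₀ (by positivity) (hA2.trans h4) k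
            exact mul_le_mul e1 e2 (by positivity) (by positivity)
        _ = 2 ^ ((A + 1) * (k + 1)) * b0 ^ 2 := by
            rw [← pow_mul, mul_assoc, ← pow_add, show (A + 1) + (A + 1) * k = (A + 1) * (k + 1) by ring]
            ring
    have h6 : (b0 * (2 ^ k / ((k * T + 1 : ℕ) : ℝ))) ^ 2 =
        b0 ^ 2 * (2 ^ k) ^ 2 / ((k * T + 1 : ℕ) : ℝ) ^ 2 := by
      field_simp
    rw [h6, ← mul_div_assoc, le_div_iff₀ (by positivity)]
    refine h5.trans ?_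
    have h7 : (1 : ℝ) ≤ (2 ^ k) ^ 2 := one_le_pow₀ (one_le_pow₀ (by norm_num))
    have h8 : (0 : ℝ) ≤ 2 ^ ((A + 1) * (k + 1)) * b0 ^ 2 := by positivity
    nlinarith
  · have h1 : (m : ℝ) + 1 ≤ ((k * T + 1 : ℕ) : ℝ) := by
      exact_mod_cast Nat.succ_le_succ hm
    have h2 : ((k * T + 1 : ℕ) : ℝ) ≤ ((T : ℝ) + 1) * ((k : ℝ) + 1) := by
      push_cast
      have : (0 : ℝ) ≤ T := by positivity
      have : (0 : ℝ) ≤ k := by positivity
      nlinarith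
    have h3 : 8 * ((A : ℝ) + 1) * C * ((T : ℝ) + 1) ^ 2 * ((k : ℝ) + 1) ^ 3 < b0 * 2 ^ (k + 1) := by
      rw [div_lt_div_iff₀ (by positivity) (by positivity)] at hk1
      push_cast at hk1
      linarith
    rw [mul_div_assoc', div_div, lt_div_iff₀ (by positivity)]
    push_cast
    push_cast at h1 h2
    have h4 : C * ((m : ℝ) + 1) * (((k : ℝ) * T + 1) * (4 * (((A : ℝ) + 1) * ((k : ℝ) + 1)))) ≤
        C * (((T : ℝ) + 1) * ((k : ℝ) + 1)) *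
          ((((T : ℝ) + 1) * ((k : ℝ) + 1)) * (4 * (((A : ℝ) + 1) * ((k : ℝ) + 1)))) := by
      gcongr
      exact h1.trans h2
    refine lt_of_le_of_lt h4 ?_
    have h5 : C * (((T : ℝ) + 1) * ((k : ℝ) + 1)) *
          ((((T : ℝ) + 1) * ((k : ℝ) + 1)) * (4 * (((A : ℝ) + 1) * ((k : ℝ) + 1)))) =
        8 * ((A : ℝ) + 1) * C * ((T : ℝ) + 1) ^ 2 * ((k : ℝ) + 1) ^ 3 / 2 := by ring
    have h6 : b0 * (2 : ℝ) ^ (k + 1) = 2 * (b0 * 2 ^ k) := by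
      rw [pow_succ]
      ring
    rw [h5]
    rw [h6] at h3
    linarith

theorem pf_KLO : T_KLO := by
  intro α hα K cK hc h
  have h1 := Filter.Tendsto.eventually_const_lt (show cK / 2 < cK by linarith) h
  filter_upwards [h1, eventually_ge_atTop 1] with n hn hn1
  have hp : (0 : ℝ) < n := by exact_mod_cast hn1
  have hpos : 0 < (n : ℝ) ^ (1 + α) := Real.rpow_pos_of_pos hp _
  rw [Real.rpow_neg hp.le, ← div_eq_mul_inv, div_le_iff₀ hpos]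
  exact hn.le

end Pool.Agent.H42.CG
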